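import Pool.Agent.U20.TN.Main
import Pool.Agent.U20.DN.Engine
import Pool.Agent.U20.DN.Upper

/-!
# Vertex cover and decomposable circuits
-/

set_option autoImplicit false

open Finset

namespace Pool.Agent.U20.TN

open Pool.Agent.TH700.PA Pool.Agent.U20.DN

theorem card_pair (n : ℕ) : 2 * Fintype.card (Pair n) ≤ n * n := by
  classical
  have e2 : 2 * (univ.filter (fun e : Fin n × Fin n => e.1 < e.2)).card ≤ n * n := by
    have e3 : (univ.filter (fun e : Fin n × Fin n => e.1 < e.2)).card =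
        (univ.filter (fun e : Fin n × Fin n => e.2 < e.1)).card := by
      refine card_bij (fun e _ => e.swap) (fun e he => ?_) (fun e _ f _ hef => ?_)
        (fun e he => ⟨e.swap, ?_, Prod.swap_swap e⟩)
      · rw [mem_filter] at he ⊢
        exact ⟨mem_univ _, he.2⟩
      · exact Prod.swap_injective hef
      · rw [mem_filter] at he ⊢
        exact ⟨mem_univ _, he.2⟩
    have e4 : (univ.filter (fun e : Fin n × Fin n => e.1 < e.2)).card +
        (univ.filter (fun e : Fin n × Fin n => e.2 < e.1)).card ≤ n * n := by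
      rw [← card_union_of_disjoint]
      · refine (card_le_univ _).trans (le_of_eq ?_)
        rw [Fintype.card_prod, Fintype.card_fin]
      · rw [disjoint_filter]
        intro e _ he
        exact he.not_gt
    omega
  rwa [Fintype.card_subtype]

/-- The lower bound for decomposable circuits. -/
theorem main_dnnf {g h n : ℕ} (hg : 1 ≤ g) (hh : 1 ≤ h) (μ : ℕ) (R : Type) [Fintype R] [Nonempty R]
    (I : R → Type) [∀ ρ, Fintype (I ρ)] (G : ∀ ρ, I ρ → Gate (Pair n) Bool (I ρ)) (r : ∀ ρ, I ρ)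
    (hd : ∀ ρ, Decomposable (G ρ))
    (hno : ∀ ρ x, LargeCovers h x → ¬ Acc (G ρ) x (r ρ))
    (hyes : ∀ x, SmallCover g x →
      Nat.card R ≤ 2 ^ μ * Nat.card {ρ // Acc (G ρ) x (r ρ)}) :
    ∃ ρ, 2 ^ n ≤ (2 ^ (μ + 1) * Fintype.card (I ρ)) ^ (2 ^ 25 * g ^ 4 * h ^ 8) := by
  classical
  have hg2 : g ≤ g ^ 2 := Nat.le_self_pow (by norm_num) g
  have hh2 : h ^ 2 ≤ h ^ 4 := Nat.pow_le_pow_right hh (by norm_num)
  have hgh : g * h ^ 2 ≤ g ^ 2 * h ^ 4 := Nat.mul_le_mul hg2 hh2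
  have hgh1 : 1 ≤ g * h ^ 2 := Nat.mul_pos hg (Nat.pow_pos hh)
  obtain ⟨c, hc⟩ : ∃ c, c = g ^ 2 * h ^ 4 := ⟨_, rfl⟩
  have hcc : 2 ^ 25 * g ^ 4 * h ^ 8 = 2 ^ 25 * (c * c) := by rw [hc]; ring
  rw [hcc]
  rw [← hc] at hgh
  have hc1 : 1 ≤ c := by omega
  have hc2 : c ≤ c * c := Nat.le_mul_of_pos_left _ hc1
  have hcard1 : ∀ ρ, 1 ≤ Fintype.card (I ρ) := fun ρ => Fintype.card_pos_iff.2 ⟨r ρ⟩
  rcases Nat.lt_or_ge n (32 * g * h ^ 2) with hn | hn
  · obtain ⟨ρ⟩ := ‹Nonempty R›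
    refine ⟨ρ, ?_⟩
    calc 2 ^ n ≤ 2 ^ (2 ^ 25 * (c * c)) := Nat.pow_le_pow_right (by norm_num) (by
          have : 32 * g * h ^ 2 = 32 * (g * h ^ 2) := by ring
          omega)
      _ ≤ _ := Nat.pow_le_pow_left (by
          calc 2 = 2 ^ 1 * 1 := by norm_num
            _ ≤ _ := Nat.mul_le_mul (Nat.pow_le_pow_right (by norm_num) (by omega))
                (hcard1 ρ)) _
  · have : NeZero (2 * g) := ⟨by omega⟩
    obtain ⟨t, ht⟩ : ∃ t, t = 3072 * c + 2 := ⟨_, rfl⟩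
    obtain ⟨y, hy⟩ : ∃ y, y = n / (32 * g * h ^ 2) := ⟨_, rfl⟩
    have hc0 : 0 < 32 * g * h ^ 2 := by positivity
    have hy1 : 1 ≤ y := by
      rw [hy]
      exact Nat.div_pos hn hc0
    have hyn : 32 * g * h ^ 2 * y ≤ n := by
      rw [hy]
      exact Nat.mul_div_le n _
    have hny : n < 32 * g * h ^ 2 * (y + 1) := by
      rw [hy]
      exact Nat.lt_mul_div_succ n hc0
    have hE : 3 * Fintype.card (Pair n) + 2 * (2 * y ^ 2) ≤ 2 * y ^ 2 * t := by
      have e1 := card_pair n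
      have e2 : n ≤ 64 * (g * h ^ 2) * y := by
        have e3 : 32 * g * h ^ 2 * (y + 1) = 32 * (g * h ^ 2) * y + 32 * (g * h ^ 2) := by ring
        have e4 : 32 * (g * h ^ 2) * 1 ≤ 32 * (g * h ^ 2) * y := Nat.mul_le_mul_left _ hy1
        have e5 : 64 * (g * h ^ 2) * y = 32 * (g * h ^ 2) * y + 32 * (g * h ^ 2) * y := by ring
        omega
      have e3 : n * n ≤ (64 * (g * h ^ 2) * y) * (64 * (g * h ^ 2) * y) := Nat.mul_le_mul e2 e2
      have e4 : (64 * (g * h ^ 2) * y) * (64 * (g * h ^ 2) * y) = 4096 * (c * y ^ 2) := by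
        rw [hc]; ring
      have e5 : 2 * y ^ 2 * t = 6144 * (c * y ^ 2) + 2 * (2 * y ^ 2) := by
        rw [ht]; ring
      rw [e4] at e3
      rw [e5]
      omega
    obtain ⟨ρ, hρ⟩ := rand_dnnf μ R I G r hd (θ := 2 * y ^ 2) (t := t)
      (by have := Nat.pow_pos (n := 2) hy1; omega) hE
      (U := Fin n → Fin (2 * g)) pat
      (univ.filter (fun τ : Fin n → Fin (2 * g) => g * (zer τ).card ≤ n)) (η := 1) half
      (fun τ hτ => hyes _ ⟨zer τ, pat_cover τ, (mem_filter.1 hτ).2⟩) (N := 2 ^ n)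
      (fun ρ p hp => by
        obtain ⟨B, hB1, hB2⟩ := few_vc hg hh hn hyn p (fun j => (hp j).trans (by omega))
        exact ⟨B, fun b hb => hB1 b fun hv => hno ρ _ hv hb, hB2⟩)
    refine ⟨ρ, ?_⟩
    obtain ⟨s, hs⟩ : ∃ s, s = Fintype.card (I ρ) := ⟨_, rfl⟩
    have hs1 : 1 ≤ s := by
      rw [hs]
      exact hcard1 ρ
    rw [← hs] at hρ ⊢
    have ht1 : 1 ≤ t := by omega
    have hX1 : 1 ≤ 2 ^ (μ + 1) * s := Nat.mul_pos (Nat.pow_pos (by norm_num)) hs1
    have e1 : 2 ^ (μ + 1) * s ^ (2 * t) ≤ (2 ^ (μ + 1) * s) ^ (2 * t) := by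
      rw [mul_pow]
      exact Nat.mul_le_mul_right _ (Nat.le_self_pow (by omega) _)
    calc 2 ^ n ≤ ((2 ^ (μ + 1) * s) ^ (2 * t)) ^ t := hρ.trans (Nat.pow_le_pow_left e1 _)
      _ = (2 ^ (μ + 1) * s) ^ (2 * t * t) := (pow_mul _ _ _).symm
      _ ≤ _ := Nat.pow_le_pow_right hX1 (by
          have e2 : t ≤ 3074 * c := by omega
          calc 2 * t * t ≤ 2 * (3074 * c) * (3074 * c) :=
                Nat.mul_le_mul (Nat.mul_le_mul_left _ e2) e2
            _ = 18898952 * (c * c) := by ring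
            _ ≤ _ := Nat.mul_le_mul_right _ (by norm_num))

/-- The upper bound. -/
theorem upper_dnnf (n k : ℕ) :
    ∃ (I : Type) (_ : Fintype I) (G : I → Gate (Pair n) Bool I) (r : I), Decomposable G ∧
      Fintype.card I ≤ 2 ^ n * (n * n + 1) + 1 ∧
        ∀ x, Acc G x r ↔ ∃ C : Finset (Fin n), IsCover x C ∧ C.card ≤ k := by
  classical
  refine ⟨UI (Pair n) {C : Finset (Fin n) // C.card ≤ k}, inferInstance,
    ub (fun C e b => b = true → e.1.1 ∈ C.1 ∨ e.1.2 ∈ C.1), none, ub_decomposable _, ?_,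
    fun x => ?_⟩
  · rw [card_ui]
    have h1 : Fintype.card {C : Finset (Fin n) // C.card ≤ k} ≤ 2 ^ n := by
      refine (Fintype.card_subtype_le _).trans (le_of_eq ?_)
      rw [Fintype.card_finset, Fintype.card_fin]
    have h2 := card_pair n
    exact Nat.add_le_add_right (Nat.mul_le_mul h1 (by omega)) 1
  · rw [ub_acc]
    constructor
    · rintro ⟨C, hC⟩
      exact ⟨C.1, hC, C.2⟩
    · rintro ⟨C, hC, hk⟩
      exact ⟨⟨C, hk⟩, hC⟩

end Pool.Agent.U20.TN
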