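import Pool.Agent.U20.TN.VC

/-!
# Vertex cover and read-once tensor networks
-/

set_option autoImplicit false

open Finset

namespace Pool.Agent.U20.TN

open Pool.Agent.TH700.PA

variable {n G t : ℕ}

/-- The vertices with the value zero. -/
def zer [NeZero G] (τ : Fin n → Fin G) : Finset (Fin n) := univ.filter (fun v => τ v = 0)

/-- The graph of all pairs which touch the vertices with the value zero. -/
def pat [NeZero G] (τ : Fin n → Fin G) (e : Pair n) : Bool :=
  decide (τ e.1.1 = 0 ∨ τ e.1.2 = 0)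

theorem pat_cover [NeZero G] (τ : Fin n → Fin G) : IsCover (pat τ) (zer τ) := by
  intro e he
  unfold pat at he
  rw [decide_eq_true_eq] at he
  unfold zer
  rw [mem_filter, mem_filter]
  exact he.imp (fun h => ⟨mem_univ _, h⟩) fun h => ⟨mem_univ _, h⟩

theorem card_val [NeZero G] (v : Fin n) :
    (univ.filter (fun τ : Fin n → Fin G => τ v = 0)).card * G = G ^ n := by
  classical
  have h1 : univ.filter (fun τ : Fin n → Fin G => τ v = 0) =
      Fintype.piFinset (fun u => if u = v then ({0} : Finset (Fin G)) else univ) := by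
    ext τ
    rw [mem_filter, Fintype.mem_piFinset]
    constructor
    · rintro ⟨-, h⟩ u
      by_cases hu : u = v
      · rw [if_pos hu, hu, h]
        exact mem_singleton_self _
      · rw [if_neg hu]
        exact mem_univ _
    · intro h
      have h2 := h v
      rw [if_pos rfl, mem_singleton] at h2
      exact ⟨mem_univ _, h2⟩
  rw [h1, Fintype.card_piFinset]
  have h2 : ∀ u : Fin n, (if u = v then ({0} : Finset (Fin G)) else univ).card =
      if u = v then 1 else G := by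
    intro u
    split_ifs
    · exact card_singleton _
    · rw [card_univ, Fintype.card_fin]
  rw [prod_congr rfl fun u _ => h2 u, ← mul_prod_erase univ _ (mem_univ v), if_pos rfl, one_mul,
    prod_congr rfl fun u hu => if_neg (ne_of_mem_erase hu), prod_const,
    card_erase_of_mem (mem_univ _), card_univ, Fintype.card_fin, ← pow_succ]
  congr 1
  have := v.2
  omega

/-- Half of the sets are small. -/
theorem half {g : ℕ} [NeZero (2 * g)] : Fintype.card (Fin n → Fin (2 * g)) ≤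
    2 ^ 1 * (univ.filter (fun τ : Fin n → Fin (2 * g) => g * (zer τ).card ≤ n)).card := by
  classical
  obtain ⟨Y, hY⟩ : ∃ Y, Y = univ.filter
    (fun τ : Fin n → Fin (2 * g) => g * (zer τ).card ≤ n) := ⟨_, rfl⟩
  rw [← hY]
  have h1 : (∑ τ : Fin n → Fin (2 * g), (zer τ).card) * (2 * g) = n * (2 * g) ^ n := by
    have e1 : ∑ τ : Fin n → Fin (2 * g), (zer τ).card =
        ∑ v : Fin n, (univ.filter (fun τ : Fin n → Fin (2 * g) => τ v = 0)).card := by
      unfold zer
      simp only [card_filter]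
      exact sum_comm
    rw [e1, sum_mul, sum_congr rfl fun v _ => card_val v, sum_const, card_univ, Fintype.card_fin,
      smul_eq_mul]
  have h2 : (n + 1) * Yᶜ.card ≤ g * ∑ τ : Fin n → Fin (2 * g), (zer τ).card := by
    calc (n + 1) * Yᶜ.card = ∑ _τ ∈ Yᶜ, (n + 1) := by rw [sum_const, smul_eq_mul, mul_comm]
      _ ≤ ∑ τ ∈ Yᶜ, g * (zer τ).card := by
          refine sum_le_sum fun τ hτ => ?_
          rw [mem_compl, hY, mem_filter, not_and] at hτ
          have := hτ (mem_univ _)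
          omega
      _ ≤ ∑ τ : Fin n → Fin (2 * g), g * (zer τ).card := sum_le_sum_of_subset (subset_univ _)
      _ = _ := by rw [mul_sum]
  have h3 : 2 * ((n + 1) * Yᶜ.card) ≤ n * (2 * g) ^ n := by
    calc 2 * ((n + 1) * Yᶜ.card) ≤ 2 * (g * ∑ τ : Fin n → Fin (2 * g), (zer τ).card) :=
          Nat.mul_le_mul_left _ h2
      _ = (∑ τ : Fin n → Fin (2 * g), (zer τ).card) * (2 * g) := by ring
      _ = _ := h1
  have h4 : Fintype.card (Fin n → Fin (2 * g)) = (2 * g) ^ n := by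
    rw [Fintype.card_fun, Fintype.card_fin, Fintype.card_fin]
  have h5 := card_add_card_compl Y
  rw [h4] at h5
  rw [h4, pow_one]
  by_contra hcon
  rw [not_le] at hcon
  have h6 : (2 * g) ^ n < 2 * Yᶜ.card := by omega
  have h7 : n * (2 * g) ^ n ≤ (n + 1) * (2 * g) ^ n := Nat.mul_le_mul_right _ (by omega)
  have h8 : (n + 1) * (2 * g) ^ n < (n + 1) * (2 * Yᶜ.card) :=
    Nat.mul_lt_mul_of_pos_left h6 (by omega)
  have h9 : (n + 1) * (2 * Yᶜ.card) = 2 * ((n + 1) * Yᶜ.card) := by ring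
  omega

/-- Avoiding zero at the places in `D`. -/
theorem card_avoid [NeZero G] (D : Finset (Fin t × Fin n)) :
    (univ.filter (fun b : Fin t → Fin n → Fin G => ∀ s ∈ D, b s.1 s.2 ≠ 0)).card * G ^ D.card =
      (G - 1) ^ D.card * Fintype.card (Fin n → Fin G) ^ t := by
  classical
  have h1 : univ.filter (fun b : Fin t → Fin n → Fin G => ∀ s ∈ D, b s.1 s.2 ≠ 0) =
      Fintype.piFinset (fun j => Fintype.piFinset (fun v =>
        if (j, v) ∈ D then (univ.erase (0 : Fin G)) else univ)) := by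
    ext b
    rw [mem_filter, Fintype.mem_piFinset]
    constructor
    · rintro ⟨-, h⟩ j
      rw [Fintype.mem_piFinset]
      intro v
      split_ifs with hv
      · exact mem_erase.2 ⟨h _ hv, mem_univ _⟩
      · exact mem_univ _
    · intro h
      refine ⟨mem_univ _, fun s hs => ?_⟩
      have h2 := Fintype.mem_piFinset.1 (h s.1) s.2
      rw [if_pos hs] at h2
      exact (mem_erase.1 h2).1
  have h2 : ∀ (j : Fin t) (v : Fin n), (if (j, v) ∈ D then (univ.erase (0 : Fin G)) else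
      univ).card = if (j, v) ∈ D then G - 1 else G := by
    intro j v
    split_ifs
    · rw [card_erase_of_mem (mem_univ _), card_univ, Fintype.card_fin]
    · rw [card_univ, Fintype.card_fin]
  rw [h1, Fintype.card_piFinset]
  simp only [Fintype.card_piFinset, h2]
  rw [← Fintype.prod_prod_type' (f := fun j v => if (j, v) ∈ D then G - 1 else G)]
  have h3 : (∏ s : Fin t × Fin n, if (s.1, s.2) ∈ D then G - 1 else G) =
      (G - 1) ^ D.card * G ^ (Dᶜ).card := by
    rw [← prod_mul_prod_compl D]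
    congr 1
    · rw [prod_congr rfl fun s hs => if_pos hs, prod_const]
    · rw [prod_congr rfl fun s hs => if_neg (mem_compl.1 hs), prod_const]
  have h4 : D.card + (Dᶜ).card = t * n := by
    rw [card_add_card_compl, Fintype.card_prod, Fintype.card_fin, Fintype.card_fin]
  rw [h3, Fintype.card_fun, Fintype.card_fin, Fintype.card_fin, mul_assoc, ← pow_add, ← pow_mul]
  congr 2
  rw [mul_comm n t]
  omega

theorem pow_half {G : ℕ} (hG : 1 ≤ G) : (G - 1) ^ G * 2 ≤ G ^ G := by
  obtain ⟨m, rfl⟩ : ∃ m, G = m + 1 := ⟨G - 1, by omega⟩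
  rw [Nat.add_sub_cancel]
  have h1 : ∀ k : ℕ, m ^ k * (m + k) ≤ (m + 1) ^ k * m := by
    intro k
    induction k with
    | zero => simp
    | succ k ih =>
      calc m ^ (k + 1) * (m + (k + 1)) = m ^ k * (m * (m + (k + 1))) := by ring
        _ ≤ m ^ k * ((m + 1) * (m + k)) := Nat.mul_le_mul_left _ (by nlinarith)
        _ = (m + 1) * (m ^ k * (m + k)) := by ring
        _ ≤ (m + 1) * ((m + 1) ^ k * m) := Nat.mul_le_mul_left _ ih
        _ = _ := by ring
  rcases Nat.eq_zero_or_pos m with h0 | h0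
  · subst h0
    norm_num
  · have h2 := h1 (m + 1)
    refine Nat.le_of_mul_le_mul_right (c := m) ?_ h0
    calc m ^ (m + 1) * 2 * m = m ^ (m + 1) * (2 * m) := by ring
      _ ≤ m ^ (m + 1) * (m + (m + 1)) := Nat.mul_le_mul_left _ (by omega)
      _ ≤ _ := h2

open Classical in
/-- The places of the mixture where zero has to be avoided. -/
noncomputable def Dd (p : Pair n → Fin t) (I : Finset (Fin n)) : Finset (Fin t × Fin n) :=
  univ.filter (fun s => ∃ e : Pair n, p e = s.1 ∧ e.1.1 ∈ I ∧ e.1.2 ∈ I ∧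
    (e.1.1 = s.2 ∨ e.1.2 = s.2))

theorem mem_dd {p : Pair n → Fin t} {I : Finset (Fin n)} {s : Fin t × Fin n} : s ∈ Dd p I ↔
    ∃ e : Pair n, p e = s.1 ∧ e.1.1 ∈ I ∧ e.1.2 ∈ I ∧ (e.1.1 = s.2 ∨ e.1.2 = s.2) := by
  unfold Dd
  rw [mem_filter, and_iff_right (mem_univ s)]

/-- The pairs inside a set of vertices. -/
theorem card_inside (I : Finset (Fin n)) : I.card * I.card ≤
    2 * (univ.filter (fun e : Pair n => e.1.1 ∈ I ∧ e.1.2 ∈ I)).card + I.card := by
  classical
  obtain ⟨E, hE⟩ : ∃ E, E = univ.filter (fun e : Pair n => e.1.1 ∈ I ∧ e.1.2 ∈ I) := ⟨_, rfl⟩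
  rw [← hE, ← card_product]
  have h1 : I ×ˢ I ⊆ (E.image (fun e => e.1) ∪ E.image (fun e => e.1.swap)) ∪
      I.image (fun v => (v, v)) := by
    rintro ⟨u, v⟩ huv
    rw [mem_product] at huv
    rw [mem_union, mem_union, mem_image, mem_image, mem_image]
    rcases lt_trichotomy u v with h | h | h
    · refine Or.inl (Or.inl ⟨⟨(u, v), h⟩, ?_, rfl⟩)
      rw [hE, mem_filter]
      exact ⟨mem_univ _, huv⟩
    · refine Or.inr ⟨u, huv.1, ?_⟩
      rw [h]
    · refine Or.inl (Or.inr ⟨⟨(v, u), h⟩, ?_, rfl⟩)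
      rw [hE, mem_filter]
      exact ⟨mem_univ _, huv.2, huv.1⟩
  have h2 := card_le_card h1
  have h3 := card_union_le (E.image (fun e => e.1) ∪ E.image (fun e => e.1.swap))
    (I.image (fun v => (v, v)))
  have h4 := card_union_le (E.image (fun e => e.1)) (E.image (fun e => e.1.swap))
  have h5 : (E.image (fun e => e.1)).card ≤ E.card := card_image_le
  have h6 : (E.image (fun e => e.1.swap)).card ≤ E.card := card_image_le
  have h7 : (I.image (fun v => (v, v))).card ≤ I.card := card_image_le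
  omega

/-- A set of vertices with many pairs has many places. -/
theorem card_inside_le {y : ℕ} (p : Pair n → Fin t)
    (hb : ∀ j, (univ.filter (fun e => p e = j)).card ≤ 4 * y ^ 2) (I : Finset (Fin n)) :
    (univ.filter (fun e : Pair n => e.1.1 ∈ I ∧ e.1.2 ∈ I)).card ≤ 2 * y * (Dd p I).card := by
  classical
  obtain ⟨E, hE⟩ : ∃ E, E = univ.filter (fun e : Pair n => e.1.1 ∈ I ∧ e.1.2 ∈ I) := ⟨_, rfl⟩
  rw [← hE]
  let Vj : Fin t → Finset (Fin n) := fun j => univ.filter (fun v => (j, v) ∈ Dd p I)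
  have h1 : E.card = ∑ j : Fin t, (E.filter (fun e => p e = j)).card :=
    card_eq_sum_card_fiberwise fun e _ => mem_coe.2 (mem_univ (p e))
  have h2 : (Dd p I).card = ∑ j : Fin t, (Vj j).card := by
    have e1 : (Dd p I).card = ∑ s : Fin t × Fin n, if s ∈ Dd p I then 1 else 0 := by
      rw [← card_filter]
      congr 1
      ext s
      simp
    rw [e1, Fintype.sum_prod_type]
    refine sum_congr rfl fun j _ => ?_
    rw [card_filter]
  have h3 : ∀ j, (E.filter (fun e => p e = j)).card ≤ 2 * y * (Vj j).card := by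
    intro j
    obtain ⟨m, hm⟩ : ∃ m, m = (E.filter (fun e => p e = j)).card := ⟨_, rfl⟩
    rw [← hm]
    have e1 : m ≤ 4 * y ^ 2 := by
      rw [hm]
      refine le_trans (card_le_card fun e he => ?_) (hb j)
      rw [mem_filter] at he ⊢
      exact ⟨mem_univ _, he.2⟩
    have e2 : m ≤ (Vj j).card * (Vj j).card := by
      rw [hm, ← card_product]
      refine card_le_card_of_injOn (fun e => e.1) (fun e he => ?_)
        (fun e _ f _ hef => Subtype.ext hef)
      rw [mem_coe, mem_filter, hE, mem_filter] at he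
      rw [mem_coe, mem_product]
      refine ⟨mem_filter.2 ⟨mem_univ _, mem_dd.2 ⟨e, he.2, he.1.2.1, he.1.2.2, Or.inl rfl⟩⟩,
        mem_filter.2 ⟨mem_univ _, mem_dd.2 ⟨e, he.2, he.1.2.1, he.1.2.2, Or.inr rfl⟩⟩⟩
    have e3 : m * m ≤ (2 * y * (Vj j).card) * (2 * y * (Vj j).card) := by
      calc m * m ≤ (4 * y ^ 2) * ((Vj j).card * (Vj j).card) := Nat.mul_le_mul e1 e2
        _ = _ := by ring
    exact Nat.mul_self_le_mul_self_iff.1 e3
  rw [h1, h2, mul_sum]
  exact sum_le_sum fun j _ => h3 j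

/-- A large set of vertices has many places. -/
theorem many_places {g h y : ℕ} (hg : 1 ≤ g) (hh : 1 ≤ h) (hn : 32 * g * h ^ 2 ≤ n)
    (hy : 32 * g * h ^ 2 * y ≤ n) (p : Pair n → Fin t)
    (hb : ∀ j, (univ.filter (fun e => p e = j)).card ≤ 4 * y ^ 2) {I : Finset (Fin n)}
    (hI : n < h * I.card) : 2 * g * (2 * n) ≤ (Dd p I).card := by
  have h1 := card_inside I
  have h2 := card_inside_le p hb I
  obtain ⟨i, hi⟩ : ∃ i, i = I.card := ⟨_, rfl⟩
  obtain ⟨D, hD⟩ : ∃ D, D = (Dd p I).card := ⟨_, rfl⟩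
  obtain ⟨E, hE⟩ : ∃ E, E = (univ.filter (fun e : Pair n => e.1.1 ∈ I ∧ e.1.2 ∈ I)).card :=
    ⟨_, rfl⟩
  rw [← hi, ← hE] at h1
  rw [← hE, ← hD] at h2
  rw [← hi] at hI
  rw [← hD]
  by_contra hcon
  rw [not_le] at hcon
  have h3 : 2 ≤ i := by
    by_contra hc
    have h4 : h * i ≤ h * 1 := Nat.mul_le_mul_left _ (by omega)
    have h5 : h ≤ 32 * g * h ^ 2 := by nlinarith
    omega
  have h4 : i * i ≤ 8 * y * D := by nlinarith
  have h5 : 0 < n := by
    have : 0 < 32 * g * h ^ 2 := by positivity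
    omega
  have h6 : 4 * g * ((h * i) * (h * i)) ≤ n * D := by
    calc 4 * g * ((h * i) * (h * i)) = 4 * g * h ^ 2 * (i * i) := by ring
      _ ≤ 4 * g * h ^ 2 * (8 * y * D) := Nat.mul_le_mul_left _ h4
      _ = 32 * g * h ^ 2 * y * D := by ring
      _ ≤ n * D := Nat.mul_le_mul_right _ hy
  have h7 : n * D < n * (2 * g * (2 * n)) := Nat.mul_lt_mul_of_pos_left hcon h5
  have h8 : 4 * g * (n * n) ≤ 4 * g * ((h * i) * (h * i)) :=
    Nat.mul_le_mul_left _ (Nat.mul_le_mul hI.le hI.le)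
  have h9 : n * (2 * g * (2 * n)) = 4 * g * (n * n) := by ring
  omega

/-- Few mixtures have a large independent set. -/
theorem few_vc {g h y : ℕ} (hg : 1 ≤ g) (hh : 1 ≤ h) [NeZero (2 * g)]
    (hn : 32 * g * h ^ 2 ≤ n) (hy : 32 * g * h ^ 2 * y ≤ n) (p : Pair n → Fin t)
    (hb : ∀ j, (univ.filter (fun e => p e = j)).card ≤ 4 * y ^ 2) :
    ∃ B : Finset (Fin t → Fin n → Fin (2 * g)),
      (∀ b, ¬ LargeCovers h (mixp p pat b) → b ∈ B) ∧
      B.card * 2 ^ n ≤ Fintype.card (Fin n → Fin (2 * g)) ^ t := by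
  classical
  obtain ⟨C, hC⟩ : ∃ C, C = Fintype.card (Fin n → Fin (2 * g)) ^ t := ⟨_, rfl⟩
  rw [← hC]
  refine ⟨(univ.filter (fun I : Finset (Fin n) => n < h * I.card)).biUnion (fun I =>
    univ.filter (fun b : Fin t → Fin n → Fin (2 * g) => ∀ s ∈ Dd p I, b s.1 s.2 ≠ 0)),
    fun b hb' => ?_, ?_⟩
  · unfold LargeCovers at hb'
    push Not at hb'
    obtain ⟨Q, hQ, hlt⟩ := hb'
    rw [mem_biUnion]
    refine ⟨Qᶜ, ?_, ?_⟩
    · rw [mem_filter]
      refine ⟨mem_univ _, ?_⟩
      have e1 := card_add_card_compl Q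
      rw [Fintype.card_fin] at e1
      have e2 : h * n = h * Q.card + h * (Qᶜ).card := by
        rw [← mul_add, e1]
      omega
    · rw [mem_filter]
      refine ⟨mem_univ _, fun s hs => ?_⟩
      obtain ⟨e, he, h1, h2, h3⟩ := mem_dd.1 hs
      rw [mem_compl] at h1 h2
      have h4 : ¬ (mixp p pat b) e = true := fun hx => (hQ e hx).elim h1 h2
      unfold mixp pat at h4
      rw [decide_eq_true_eq, not_or, he] at h4
      rcases h3 with h3 | h3
      · rw [← h3]
        exact h4.1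
      · rw [← h3]
        exact h4.2
  · have h1 : ∀ I ∈ univ.filter (fun I : Finset (Fin n) => n < h * I.card),
        (univ.filter (fun b : Fin t → Fin n → Fin (2 * g) =>
          ∀ s ∈ Dd p I, b s.1 s.2 ≠ 0)).card * 2 ^ (2 * n) ≤ C := by
      intro I hI
      have e1 := many_places hg hh hn hy p hb (mem_filter.1 hI).2
      obtain ⟨r, hr⟩ := Nat.exists_eq_add_of_le e1
      have e2 := card_avoid (G := 2 * g) (Dd p I)
      rw [← hC] at e2
      have e3 : (2 * g - 1) ^ (Dd p I).card * 2 ^ (2 * n) ≤ (2 * g) ^ (Dd p I).card := by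
        rw [hr, pow_add, pow_add, pow_mul (2 * g - 1) (2 * g) (2 * n),
          pow_mul (2 * g) (2 * g) (2 * n)]
        calc ((2 * g - 1) ^ (2 * g)) ^ (2 * n) * (2 * g - 1) ^ r * 2 ^ (2 * n) =
              ((2 * g - 1) ^ (2 * g) * 2) ^ (2 * n) * (2 * g - 1) ^ r := by
              rw [mul_pow]; ring
          _ ≤ ((2 * g) ^ (2 * g)) ^ (2 * n) * (2 * g) ^ r :=
              Nat.mul_le_mul (Nat.pow_le_pow_left (pow_half (by omega)) _)
                (Nat.pow_le_pow_left (by omega) _)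
      refine Nat.le_of_mul_le_mul_right (c := (2 * g) ^ (Dd p I).card) ?_
        (Nat.pow_pos (by omega))
      rw [mul_right_comm, e2]
      calc (2 * g - 1) ^ (Dd p I).card * C * 2 ^ (2 * n) =
            (2 * g - 1) ^ (Dd p I).card * 2 ^ (2 * n) * C := by ring
        _ ≤ (2 * g) ^ (Dd p I).card * C := Nat.mul_le_mul_right _ e3
        _ = _ := mul_comm _ _
    have h2 : (univ.filter (fun I : Finset (Fin n) => n < h * I.card)).card ≤ 2 ^ n := by
      refine (card_le_univ _).trans (le_of_eq ?_)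
      rw [Fintype.card_finset, Fintype.card_fin]
    refine Nat.le_of_mul_le_mul_right (c := 2 ^ n) ?_ (Nat.pow_pos (by norm_num))
    calc _ = ((univ.filter (fun I : Finset (Fin n) => n < h * I.card)).biUnion (fun I =>
          univ.filter (fun b : Fin t → Fin n → Fin (2 * g) =>
            ∀ s ∈ Dd p I, b s.1 s.2 ≠ 0))).card * 2 ^ (2 * n) := by
          rw [mul_assoc, ← pow_add, ← two_mul]
      _ ≤ (∑ I ∈ univ.filter (fun I : Finset (Fin n) => n < h * I.card),
          (univ.filter (fun b : Fin t → Fin n → Fin (2 * g) =>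
            ∀ s ∈ Dd p I, b s.1 s.2 ≠ 0)).card) * 2 ^ (2 * n) :=
          Nat.mul_le_mul_right _ card_biUnion_le
      _ = ∑ I ∈ univ.filter (fun I : Finset (Fin n) => n < h * I.card),
          (univ.filter (fun b : Fin t → Fin n → Fin (2 * g) =>
            ∀ s ∈ Dd p I, b s.1 s.2 ≠ 0)).card * 2 ^ (2 * n) := by rw [sum_mul]
      _ ≤ ∑ _I ∈ univ.filter (fun I : Finset (Fin n) => n < h * I.card), C :=
          sum_le_sum h1
      _ = (univ.filter (fun I : Finset (Fin n) => n < h * I.card)).card * C := by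
          rw [sum_const, smul_eq_mul]
      _ ≤ 2 ^ n * C := Nat.mul_le_mul_right _ h2
      _ = _ := mul_comm _ _

/-- The lower bound. -/
theorem main_vc {g h n : ℕ} (hg : 1 ≤ g) (hh : 1 ≤ h) (μ : ℕ) (R : Type) [Fintype R] [Nonempty R]
    (K W : R → Type) [∀ ρ, Field (K ρ)] [∀ ρ, Fintype (W ρ)]
    (T : ∀ ρ, Net (K ρ) (Pair n) Bool (W ρ)) (a : ∀ ρ, W ρ → K ρ)
    (h1 : ∀ ρ e, (T ρ).reads e ≤ 1)
    (hno : ∀ ρ x, LargeCovers h x → (T ρ).value (a ρ) x = 0)
    (hyes : ∀ x, SmallCover g x →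
      Nat.card R ≤ 2 ^ μ * Nat.card {ρ // (T ρ).value (a ρ) x ≠ 0}) :
    ∃ ρ, 2 ^ n ≤ (2 ^ 14 * g ^ 2 * h ^ 4 * (2 ^ μ * Fintype.card (W ρ))) ^
      (2 ^ 14 * g ^ 2 * h ^ 4) := by
  classical
  obtain ⟨P, hP⟩ : ∃ P, P = 2 ^ 14 * g ^ 2 * h ^ 4 := ⟨_, rfl⟩
  rw [← hP]
  have hg2 : g ≤ g ^ 2 := Nat.le_self_pow (by norm_num) g
  have hh2 : h ^ 2 ≤ h ^ 4 := Nat.pow_le_pow_right hh (by norm_num)
  have hgh : g * h ^ 2 ≤ g ^ 2 * h ^ 4 := Nat.mul_le_mul hg2 hh2
  have hgh1 : 1 ≤ g * h ^ 2 := Nat.mul_pos hg (Nat.pow_pos hh)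
  rcases Nat.lt_or_ge n (32 * g * h ^ 2) with hn | hn
  · have e1 := hyes (fun _ => false) ⟨∅, fun e he => by simp at he, by simp⟩
    have e2 : 0 < Nat.card {ρ // (T ρ).value (a ρ) (fun _ => false) ≠ 0} := by
      rcases Nat.eq_zero_or_pos (Nat.card {ρ // (T ρ).value (a ρ) (fun _ => false) ≠ 0}) with
        h0 | h0
      · rw [h0, mul_zero] at e1
        have e3 : 0 < Nat.card R := Nat.card_pos
        omega
      · exact h0
    obtain ⟨⟨ρ, hρ⟩⟩ := (Nat.card_pos_iff.1 e2).1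
    have hW : Nonempty (W ρ) := by
      by_contra hW
      rw [not_nonempty_iff] at hW
      refine hρ ?_
      unfold Net.value
      simp
    have hw1 : 1 ≤ 2 ^ μ * Fintype.card (W ρ) :=
      Nat.mul_pos (Nat.pow_pos (by norm_num)) Fintype.card_pos
    refine ⟨ρ, ?_⟩
    have hP2 : P = 2 ^ 14 * (g ^ 2 * h ^ 4) := by rw [hP]; ring
    calc 2 ^ n ≤ 2 ^ P := Nat.pow_le_pow_right (by norm_num) (by
          have : 32 * g * h ^ 2 = 32 * (g * h ^ 2) := by ring
          omega)
      _ ≤ _ := Nat.pow_le_pow_left (by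
          calc 2 ≤ P * 1 := by omega
            _ ≤ _ := Nat.mul_le_mul_left _ hw1) _
  · have : NeZero (2 * g) := ⟨by omega⟩
    obtain ⟨t, ht⟩ : ∃ t, t = 2048 * (g ^ 2 * h ^ 4) + 1 := ⟨_, rfl⟩
    obtain ⟨y, hy⟩ : ∃ y, y = n / (32 * g * h ^ 2) := ⟨_, rfl⟩
    have hc0 : 0 < 32 * g * h ^ 2 := by positivity
    have hy1 : 1 ≤ y := by
      rw [hy]
      exact Nat.div_pos hn hc0
    have hyn : 32 * g * h ^ 2 * y ≤ n := by
      rw [hy]
      exact Nat.mul_div_le n _
    have hny : n < 32 * g * h ^ 2 * (y + 1) := by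
      rw [hy]
      exact Nat.lt_mul_div_succ n hc0
    have hE : 2 * Fintype.card (Pair n) + 2 * y ^ 2 ≤ 2 * y ^ 2 * t := by
      have e1 : 2 * Fintype.card (Pair n) ≤ n * n := by
        have e2 : 2 * (univ.filter (fun e : Fin n × Fin n => e.1 < e.2)).card ≤ n * n := by
          have e3 : (univ.filter (fun e : Fin n × Fin n => e.1 < e.2)).card =
              (univ.filter (fun e : Fin n × Fin n => e.2 < e.1)).card := by
            refine card_bij (fun e _ => e.swap) (fun e he => ?_) (fun e _ f _ hef => ?_)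
              (fun e he => ⟨e.swap, ?_, Prod.swap_swap e⟩)
            · rw [mem_filter] at he ⊢
              exact ⟨mem_univ _, he.2⟩
            · exact Prod.swap_injective hef
            · rw [mem_filter] at he ⊢
              exact ⟨mem_univ _, he.2⟩
          have e4 : (univ.filter (fun e : Fin n × Fin n => e.1 < e.2)).card +
              (univ.filter (fun e : Fin n × Fin n => e.2 < e.1)).card ≤ n * n := by
            rw [← card_union_of_disjoint]
            · refine (card_le_univ _).trans (le_of_eq ?_)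
              rw [Fintype.card_prod, Fintype.card_fin]
            · rw [disjoint_filter]
              intro e _ he
              exact he.not_gt
          omega
        rwa [Fintype.card_subtype]
      have e2 : n ≤ 64 * (g * h ^ 2) * y := by
        have e3 : 32 * g * h ^ 2 * (y + 1) = 32 * (g * h ^ 2) * y + 32 * (g * h ^ 2) := by ring
        have e4 : 32 * (g * h ^ 2) * 1 ≤ 32 * (g * h ^ 2) * y := Nat.mul_le_mul_left _ hy1
        have e5 : 64 * (g * h ^ 2) * y = 32 * (g * h ^ 2) * y + 32 * (g * h ^ 2) * y := by ring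
        omega
      have e3 : n * n ≤ (64 * (g * h ^ 2) * y) * (64 * (g * h ^ 2) * y) := Nat.mul_le_mul e2 e2
      calc 2 * Fintype.card (Pair n) + 2 * y ^ 2 ≤
            (64 * (g * h ^ 2) * y) * (64 * (g * h ^ 2) * y) + 2 * y ^ 2 :=
            Nat.add_le_add_right (e1.trans e3) _
        _ = 2 * y ^ 2 * (2048 * (g ^ 2 * h ^ 4) + 1) := by ring
        _ = _ := by rw [ht]
    obtain ⟨ρ, hρ, hw1⟩ := rand_density μ R K W T a h1 (θ := 2 * y ^ 2) (t := t)
      (by have := Nat.pow_pos (n := 2) hy1; omega) (by omega) hE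
      (U := Fin n → Fin (2 * g)) pat
      (univ.filter (fun τ : Fin n → Fin (2 * g) => g * (zer τ).card ≤ n)) (η := 1) half
      (fun τ hτ => hyes _ ⟨zer τ, pat_cover τ, (mem_filter.1 hτ).2⟩) (N := 2 ^ n)
      (fun ρ p hp => by
        obtain ⟨B, hB1, hB2⟩ := few_vc hg hh hn hyn p (fun j => (hp j).trans (by omega))
        exact ⟨B, fun b hb => hB1 b fun hv => hb (hno ρ _ hv), hB2⟩)
    refine ⟨ρ, ?_⟩
    obtain ⟨w, hw⟩ : ∃ w, w = Fintype.card (W ρ) := ⟨_, rfl⟩
    rw [← hw] at hρ hw1 ⊢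
    obtain ⟨X, hX⟩ : ∃ X, X = 2 ^ μ * w := ⟨_, rfl⟩
    have hX1 : 1 ≤ X := by
      rw [hX]
      exact Nat.mul_pos (Nat.pow_pos (by norm_num)) hw1
    rw [← hX]
    have e1 : 2 ^ (μ + 1 + 1) * (t * w ^ 3) ≤ (P * X) ^ 3 := by
      have e2 : 4 * t ≤ P := by
        have e3 : P = 16384 * (g ^ 2 * h ^ 4) := by rw [hP]; ring
        omega
      have e3 : 2 ^ μ ≤ (2 ^ μ) ^ 3 := Nat.le_self_pow (by norm_num) _
      have e4 : P ≤ P ^ 3 := Nat.le_self_pow (by norm_num) _
      calc 2 ^ (μ + 1 + 1) * (t * w ^ 3) = 4 * t * (2 ^ μ * w ^ 3) := by ring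
        _ ≤ P ^ 3 * ((2 ^ μ) ^ 3 * w ^ 3) :=
            Nat.mul_le_mul (e2.trans e4) (Nat.mul_le_mul_right _ e3)
        _ = _ := by rw [hX]; ring
    calc 2 ^ n ≤ ((P * X) ^ 3) ^ (t + 1) := hρ.trans (Nat.pow_le_pow_left e1 _)
      _ = (P * X) ^ (3 * (t + 1)) := (pow_mul _ _ _).symm
      _ ≤ _ := Nat.pow_le_pow_right (Nat.mul_pos (by
          have e3 : P = 16384 * (g ^ 2 * h ^ 4) := by rw [hP]; ring
          omega) hX1) (by
          have e3 : P = 16384 * (g ^ 2 * h ^ 4) := by rw [hP]; ring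
          omega)

/-- The upper bound: a linear network with one entry for every possible cover. -/
theorem upper_vc {n : ℕ} (hn : 2 ≤ n) (k : ℕ) :
    ∃ (T : Net ℚ (Pair n) Bool {S : Finset (Fin n) // S.card ≤ k})
      (a : {S : Finset (Fin n) // S.card ≤ k} → ℚ),
      T.Linear ∧ (∀ e, T.reads e = 1) ∧ T.size = 2 * Fintype.card (Pair n) - 1 ∧
        ∀ x, T.value a x ≠ 0 ↔ ∃ C : Finset (Fin n), IsCover x C ∧ C.card ≤ k := by
  classical
  have : Nonempty (Pair n) := ⟨⟨(⟨0, by omega⟩, ⟨1, by omega⟩), by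
    rw [Fin.lt_def]
    norm_num⟩⟩
  obtain ⟨T, h1, h2, h3, h4⟩ := exists_product (K := ℚ)
    (fun (e : Pair n) (β : Bool) (S : {S : Finset (Fin n) // S.card ≤ k}) =>
      if β = true → e.1.1 ∈ S.1 ∨ e.1.2 ∈ S.1 then (1 : ℚ) else 0)
  refine ⟨T, fun _ => 1, h1, h2, h3, fun x => ?_⟩
  have h5 : ∀ S : {S : Finset (Fin n) // S.card ≤ k}, 0 ≤ T.eval x S ∧
      (T.eval x S ≠ 0 ↔ IsCover x S.1) := by
    intro S
    rw [h4]
    refine ⟨prod_nonneg fun e _ => by split_ifs <;> norm_num, ?_⟩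
    rw [prod_ne_zero_iff]
    constructor
    · intro h e
      by_contra hcon
      exact h e (mem_univ _) (if_neg hcon)
    · intro h e _
      rw [if_pos (h e)]
      exact one_ne_zero
  unfold Net.value
  rw [Ne, sum_eq_zero_iff_of_nonneg (fun S _ => by
    rw [one_mul]
    exact (h5 S).1)]
  push Not
  constructor
  · rintro ⟨S, -, hS⟩
    rw [one_mul] at hS
    exact ⟨S.1, (h5 S).2.1 hS, S.2⟩
  · rintro ⟨C, hC, hk⟩
    refine ⟨⟨C, hk⟩, mem_univ _, ?_⟩
    rw [one_mul]
    exact (h5 _).2.2 hC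

end Pool.Agent.U20.TN
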