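import Pool.Agent.TH700.PA.GameTight

/-!
# Vertex cover and read-once tensor networks: definitions
-/

set_option autoImplicit false

namespace Pool.Agent.U20.TN

/-- The pairs of vertices of a graph with the vertices `0, ..., n - 1`. -/
abbrev Pair (n : ℕ) : Type := {e : Fin n × Fin n // e.1 < e.2}

/-- `C` is a vertex cover of the graph whose edges are the pairs `e` with `x e = true`. -/
def IsCover {n : ℕ} (x : Pair n → Bool) (C : Finset (Fin n)) : Prop :=
  ∀ e : Pair n, x e = true → e.1.1 ∈ C ∨ e.1.2 ∈ C

/-- Some vertex cover has at most `n / g` vertices. -/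
def SmallCover {n : ℕ} (g : ℕ) (x : Pair n → Bool) : Prop :=
  ∃ C : Finset (Fin n), IsCover x C ∧ g * C.card ≤ n

/-- Every vertex cover has at least `(1 - 1 / h) n` vertices. -/
def LargeCovers {n : ℕ} (h : ℕ) (x : Pair n → Bool) : Prop :=
  ∀ C : Finset (Fin n), IsCover x C → h * n ≤ h * C.card + n

end Pool.Agent.U20.TN
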